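import Pool.Agent.QSN.StmtsD

set_option autoImplicit false

namespace Pool.Agent.QSN.H50

open Matrix Finset Pool.Agent.QSX Pool.Agent.QSN

theorem stw_core (hct : SctStmt) (N m : ℕ) (w : Fin m → SZ (N + 2) → ℝ) (μ : SZ (N + 2) → ℝ)
    (r : ℕ) (K : Type) [Fintype K] (h : K → SZ (N + 2) → ℝ)
    (hinj : Function.Injective
      (Sum.elim (wo : (Fin 2 ⊕ (Fin N ⊕ Fin N)) → SZ (N + 2) → ℝ) h))
    (hr : ∀ j : Fin N, r ≤ mu w (μ + ep (md j) (la N)) + mu w (μ + ep 0 (md j))) :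
    mu w μ + mu w (μ + ep 0 (la N)) + r * N + ∑ k, mu w (μ + h k) ≤ m := by
  have h1 := hct m (SZ (N + 2) → ℝ) ((Fin 2 ⊕ (Fin N ⊕ Fin N)) ⊕ K) w
    (fun i => μ + Sum.elim (wo : (Fin 2 ⊕ (Fin N ⊕ Fin N)) → SZ (N + 2) → ℝ) h i)
    (fun a b hab => hinj (add_left_cancel hab))
  rw [Fintype.sum_sum_type, Fintype.sum_sum_type, Fintype.sum_sum_type, Fin.sum_univ_two] at h1
  simp only [Sum.elim_inl, Sum.elim_inr] at h1
  have e0 : μ + (wo (Sum.inl 0) : SZ (N + 2) → ℝ) = μ := by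
    show μ + 0 = μ
    rw [add_zero]
  have e1 : (wo (Sum.inl 1) : SZ (N + 2) → ℝ) = ep 0 (la N) := rfl
  have e2 : ∀ j : Fin N, (wo (Sum.inr (Sum.inl j)) : SZ (N + 2) → ℝ) = ep (md j) (la N) :=
    fun j => rfl
  have e3 : ∀ j : Fin N, (wo (Sum.inr (Sum.inr j)) : SZ (N + 2) → ℝ) = ep 0 (md j) :=
    fun j => rfl
  rw [e0, e1] at h1
  simp only [e2, e3] at h1
  have h2 : r * N ≤ ∑ j : Fin N, mu w (μ + ep (md j) (la N)) + ∑ j : Fin N, mu w (μ + ep 0 (md j)) := by
    rw [← Finset.sum_add_distrib]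
    calc r * N = ∑ _j : Fin N, r := by
          rw [Finset.sum_const, Finset.card_univ, Fintype.card_fin, smul_eq_mul, mul_comm]
      _ ≤ _ := Finset.sum_le_sum fun j _ => hr j
  omega

theorem inj_two {α : Type} {a b : α} (h : a ≠ b) : Function.Injective ![a, b] := by
  intro i j hij
  fin_cases i <;> fin_cases j <;> simp at hij ⊢
  · exact h hij
  · exact h hij.symm

theorem inj_three {α : Type} {a b c : α} (h1 : a ≠ b) (h2 : a ≠ c) (h3 : b ≠ c) :
    Function.Injective ![a, b, c] := by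
  intro i j hij
  fin_cases i <;> fin_cases j <;> simp at hij ⊢
  · exact h1 hij
  · exact h2 hij
  · exact h1 hij.symm
  · exact h3 hij
  · exact h2 hij.symm
  · exact h3 hij.symm

/-- The part which is symmetric in the two active weights. -/
def Rel {N : ℕ} (μ μ' : SZ (N + 2) → ℝ) : Prop :=
  μ' = μ + ep 0 (la N) ∨ (∃ j : Fin N, μ' = μ + ep (md j) (la N)) ∨
    ∃ j : Fin N, μ' = μ + ep 0 (md j)

theorem th_eq {N : ℕ} (j : Fin N) :
    (ep 0 (la N) : SZ (N + 2) → ℝ) = ep 0 (md j) + ep (md j) (la N) := by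
  funext a
  show a.1 0 - a.1 (la N) = (a.1 0 - a.1 (md j)) + (a.1 (md j) - a.1 (la N))
  ring

theorem stw_rel (hct : SctStmt) (hwd : SwdStmt) (N m : ℕ) (w : Fin m → SZ (N + 2) → ℝ)
    (hN : 0 < N) (μ μ' : SZ (N + 2) → ℝ) (r : ℕ) (hr1 : 1 ≤ r)
    (ha : 1 ≤ mu w μ ∧ 1 ≤ mu w (μ + ep 0 (la N)) ∧
      ∀ j : Fin N, r ≤ mu w (μ + ep (md j) (la N)) + mu w (μ + ep 0 (md j)))
    (ha' : 1 ≤ mu w μ' ∧ 1 ≤ mu w (μ' + ep 0 (la N)) ∧
      ∀ j : Fin N, r ≤ mu w (μ' + ep (md j) (la N)) + mu w (μ' + ep 0 (md j)))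
    (hrel : Rel μ μ') : r * N + min 4 (r + 2) ≤ m := by
  obtain ⟨hinj, hww, hw4, hw5⟩ := hwd N
  rcases hrel with rfl | ⟨j, rfl⟩ | ⟨j, rfl⟩
  · -- first case
    have hj := hw5 ⟨0, hN⟩
    have hk := hw4 ⟨0, hN⟩
    set j : Fin N := ⟨0, hN⟩ with hjdef
    have h := stw_core hct N m w μ r (Fin 3)
      ![ep 0 (la N) + ep 0 (la N), ep 0 (la N) + ep (md j) (la N), ep 0 (la N) + ep 0 (md j)] (by
        refine Function.Injective.sumElim hinj ?_ ?_
        · exact inj_three hj.2.1.symm hj.2.2.1.symm hj.1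
        · intro i k
          fin_cases k
          · exact (hww i).symm
          · exact (hk i).1.symm
          · exact (hk i).2.1.symm) ha.2.2
    rw [Fin.sum_univ_three] at h
    have e0 : μ + (![ep 0 (la N) + ep 0 (la N), ep 0 (la N) + ep (md j) (la N),
        ep 0 (la N) + ep 0 (md j)] : Fin 3 → SZ (N + 2) → ℝ) 0 =
        μ + ep 0 (la N) + ep 0 (la N) := (add_assoc _ _ _).symm
    have e1 : μ + (![ep 0 (la N) + ep 0 (la N), ep 0 (la N) + ep (md j) (la N),
        ep 0 (la N) + ep 0 (md j)] : Fin 3 → SZ (N + 2) → ℝ) 1 =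
        μ + ep 0 (la N) + ep (md j) (la N) := (add_assoc _ _ _).symm
    have e2 : μ + (![ep 0 (la N) + ep 0 (la N), ep 0 (la N) + ep (md j) (la N),
        ep 0 (la N) + ep 0 (md j)] : Fin 3 → SZ (N + 2) → ℝ) 2 =
        μ + ep 0 (la N) + ep 0 (md j) := (add_assoc _ _ _).symm
    rw [e0, e1, e2] at h
    have h3 := ha'.2.2 j
    have h4 := ha'.2.1
    have h5 := ha.1
    have h6 := ha'.1
    omega
  · -- second case
    have h := stw_core hct N m w μ r (Fin 2)
      ![ep 0 (la N) + ep (md j) (la N), ep (md j) (la N) + ep (md j) (la N)] (by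
        refine Function.Injective.sumElim hinj ?_ ?_
        · exact inj_two (hw5 j).2.2.2.1.symm
        · intro i k
          fin_cases k
          · exact (hw4 j i).1.symm
          · exact (hw4 j i).2.2.1.symm) ha.2.2
    rw [Fin.sum_univ_two] at h
    have e0 : μ + (![ep 0 (la N) + ep (md j) (la N), ep (md j) (la N) + ep (md j) (la N)] :
        Fin 2 → SZ (N + 2) → ℝ) 0 = μ + ep (md j) (la N) + ep 0 (la N) := by
      show μ + (ep 0 (la N) + ep (md j) (la N)) = μ + ep (md j) (la N) + ep 0 (la N)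
      abel
    have e1 : μ + (![ep 0 (la N) + ep (md j) (la N), ep (md j) (la N) + ep (md j) (la N)] :
        Fin 2 → SZ (N + 2) → ℝ) 1 = μ + ep (md j) (la N) + ep (md j) (la N) :=
      (add_assoc _ _ _).symm
    rw [e0, e1] at h
    have h3 := ha'.2.2 j
    have e3 : μ + ep (md j) (la N) + ep 0 (md j) = μ + ep 0 (la N) := by
      rw [th_eq j]
      abel
    rw [e3] at h3
    have h4 := ha'.2.1
    have h5 := ha.1
    omega
  · -- third case
    have h := stw_core hct N m w μ r (Fin 2)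
      ![ep 0 (la N) + ep 0 (md j), ep 0 (md j) + ep 0 (md j)] (by
        refine Function.Injective.sumElim hinj ?_ ?_
        · exact inj_two (hw5 j).2.2.2.2.symm
        · intro i k
          fin_cases k
          · exact (hw4 j i).2.1.symm
          · exact (hw4 j i).2.2.2.symm) ha.2.2
    rw [Fin.sum_univ_two] at h
    have e0 : μ + (![ep 0 (la N) + ep 0 (md j), ep 0 (md j) + ep 0 (md j)] :
        Fin 2 → SZ (N + 2) → ℝ) 0 = μ + ep 0 (md j) + ep 0 (la N) := by
      show μ + (ep 0 (la N) + ep 0 (md j)) = μ + ep 0 (md j) + ep 0 (la N)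
      abel
    have e1 : μ + (![ep 0 (la N) + ep 0 (md j), ep 0 (md j) + ep 0 (md j)] :
        Fin 2 → SZ (N + 2) → ℝ) 1 = μ + ep 0 (md j) + ep 0 (md j) :=
      (add_assoc _ _ _).symm
    rw [e0, e1] at h
    have h3 := ha'.2.2 j
    have e3 : μ + ep 0 (md j) + ep (md j) (la N) = μ + ep 0 (la N) := by
      rw [th_eq j]
      abel
    rw [e3] at h3
    have h4 := ha'.2.1
    have h5 := ha.1
    omega

theorem stw (hct : SctStmt) (hwd : SwdStmt) (hac : SacStmt) : StwStmt := by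
  intro N m D D' _ _ _ _ _ _ hN hinv S r hr1 hd μ μ' hμ hμ' hne
  have ha := hac N m D D' hinv S r hd μ hμ
  have ha' := hac N m D D' hinv S r hd μ' hμ'
  obtain ⟨hinj, hww, hw4, hw5⟩ := hwd N
  by_cases c1 : ∃ i : Fin 2 ⊕ (Fin N ⊕ Fin N), μ' = μ + wo i
  · obtain ⟨i, hi⟩ := c1
    rcases i with i | j | j
    · fin_cases i
      · exact absurd (hi.trans (add_zero μ)).symm hne
      · exact stw_rel hct hwd N m S.w hN μ μ' r hr1 ha ha' (Or.inl hi)
    · exact stw_rel hct hwd N m S.w hN μ μ' r hr1 ha ha' (Or.inr (Or.inl ⟨j, hi⟩))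
    · exact stw_rel hct hwd N m S.w hN μ μ' r hr1 ha ha' (Or.inr (Or.inr ⟨j, hi⟩))
  by_cases c2 : ∃ i : Fin 2 ⊕ (Fin N ⊕ Fin N), μ' + ep 0 (la N) = μ + wo i
  · obtain ⟨i, hi⟩ := c2
    rcases i with i | j | j
    · fin_cases i
      · exact stw_rel hct hwd N m S.w hN μ' μ r hr1 ha' ha (Or.inl (hi.trans (add_zero μ)).symm)
      · exact absurd (add_right_cancel hi).symm hne
    · refine stw_rel hct hwd N m S.w hN μ' μ r hr1 ha' ha (Or.inr (Or.inr ⟨j, ?_⟩))
      have hi' : μ' + ep 0 (la N) = μ + ep (md j) (la N) := hi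
      rw [th_eq j, ← add_assoc] at hi'
      exact (add_right_cancel hi').symm
    · refine stw_rel hct hwd N m S.w hN μ' μ r hr1 ha' ha (Or.inr (Or.inl ⟨j, ?_⟩))
      have hi' : μ' + ep 0 (la N) = μ + ep 0 (md j) := hi
      rw [th_eq j, add_comm (ep 0 (md j)) (ep (md j) (la N)), ← add_assoc] at hi'
      exact (add_right_cancel hi').symm
  · have hth : (ep 0 (la N) : SZ (N + 2) → ℝ) ≠ 0 := by
      intro h0
      have := @hinj (Sum.inl 1) (Sum.inl 0) h0
      simp at this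
    have h := stw_core hct N m S.w μ r (Fin 2) ![μ' - μ, μ' + ep 0 (la N) - μ] (by
        refine Function.Injective.sumElim hinj ?_ ?_
        · refine inj_two ?_
          intro h0
          apply hth
          have h1 : μ' + ep 0 (la N) = μ' := (sub_left_injective h0).symm
          exact left_eq_add.1 h1.symm
        · intro i k
          fin_cases k
          · intro h0
            exact c1 ⟨i, by
              rw [h0]
              show μ' = μ + (μ' - μ)
              abel⟩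
          · intro h0
            exact c2 ⟨i, by
              rw [h0]
              show μ' + ep 0 (la N) = μ + (μ' + ep 0 (la N) - μ)
              abel⟩) ha.2.2
    rw [Fin.sum_univ_two] at h
    have e0 : μ + (![μ' - μ, μ' + ep 0 (la N) - μ] : Fin 2 → SZ (N + 2) → ℝ) 0 = μ' := by
      show μ + (μ' - μ) = μ'
      abel
    have e1 : μ + (![μ' - μ, μ' + ep 0 (la N) - μ] : Fin 2 → SZ (N + 2) → ℝ) 1 =
        μ' + ep 0 (la N) := by
      show μ + (μ' + ep 0 (la N) - μ) = μ' + ep 0 (la N)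
      abel
    rw [e0, e1] at h
    have h3 := ha'.2.1
    have h4 := ha'.1
    have h5 := ha.1
    have h6 := ha.2.1
    omega

end Pool.Agent.QSN.H50
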