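import Pool.Agent.QSN.StmtsB

/-!
# Squad QSN, row SQN: the good base points
-/

set_option autoImplicit false

namespace Pool.Agent.QSN.H50

open Finset Pool.Agent.QSN

/-- the box `[0, N)^D` -/
noncomputable def UZ (D N : ℕ) : Finset (Fin D → ℤ) := Fintype.piFinset fun _ => Ico (0 : ℤ) (N : ℤ)

theorem mem_UZ {D N : ℕ} {m : Fin D → ℤ} : m ∈ UZ D N ↔ ∀ k, 0 ≤ m k ∧ m k < N := by
  simp [UZ, Fintype.mem_piFinset]

theorem card_UZ (D N : ℕ) : (UZ D N).card = N ^ D := by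
  simp [UZ, Fintype.card_piFinset]

theorem UZ_mono {D N N' : ℕ} (h : N ≤ N') : UZ D N ⊆ UZ D N' := by
  intro m hm
  rw [mem_UZ] at hm ⊢
  intro k
  have h' : (N : ℤ) ≤ N' := by exact_mod_cast h
  exact ⟨(hm k).1, (hm k).2.trans_le h'⟩

open Classical in
/-- the number of bad points around `m0` -/
noncomputable def ff (D N M : ℕ) (P : (Fin D → ℤ) → (Fin D → ℤ) → Prop) (m0 : Fin D → ℤ) : ℝ :=
  (((UZ D N).filter fun m => P m0 m).card : ℝ) +
    ∑ k : Fin D, (((UZ D N).filter fun m => m + sh M k ∈ UZ D N ∧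
      P (m0 + sh M k) (m + sh M k)).card : ℝ)

open Classical in
theorem sum_le {D N N' M : ℕ} (hN : 2 * N' ≤ N) (hM : M ≤ N')
    (P : (Fin D → ℤ) → (Fin D → ℤ) → Prop) :
    ∑ m0 ∈ UZ D N', ff D N M P m0 ≤
      ((D : ℝ) + 1) * (((UZ D N ×ˢ UZ D N).filter fun q => P q.1 q.2).card : ℝ) := by
  unfold ff
  rw [sum_add_distrib, sum_comm]
  have h1 : ∑ m0 ∈ UZ D N', (((UZ D N).filter fun m => P m0 m).card : ℝ) ≤
      (((UZ D N ×ˢ UZ D N).filter fun q => P q.1 q.2).card : ℝ) := by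
    rw [← Nat.cast_sum, ← card_sigma]
    norm_cast
    refine card_le_card_of_injOn (fun q => (q.1, q.2)) ?_ ?_
    · rintro ⟨m0, m⟩ h
      simp only [coe_sigma, Set.mem_sigma_iff, mem_coe, mem_filter] at h
      simp only [mem_coe, mem_filter, mem_product]
      exact ⟨⟨UZ_mono (by omega) h.1, h.2.1⟩, h.2.2⟩
    · rintro ⟨a, b⟩ _ ⟨a', b'⟩ _ h
      simp only [Prod.mk.injEq] at h
      obtain ⟨rfl, rfl⟩ := h
      rfl
  have h2 : ∀ k : Fin D, ∑ m0 ∈ UZ D N', (((UZ D N).filter fun m => m + sh M k ∈ UZ D N ∧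
      P (m0 + sh M k) (m + sh M k)).card : ℝ) ≤
      (((UZ D N ×ˢ UZ D N).filter fun q => P q.1 q.2).card : ℝ) := by
    intro k
    rw [← Nat.cast_sum, ← card_sigma]
    norm_cast
    refine card_le_card_of_injOn (fun q => (q.1 + sh M k, q.2 + sh M k)) ?_ ?_
    · rintro ⟨m0, m⟩ h
      simp only [coe_sigma, Set.mem_sigma_iff, mem_coe, mem_filter] at h
      simp only [mem_coe, mem_filter, mem_product]
      refine ⟨⟨?_, h.2.2.1⟩, h.2.2.2⟩
      rw [mem_UZ]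
      intro l
      have h3 := (mem_UZ.mp h.1) l
      have h4 : 0 ≤ sh M k l ∧ sh M k l ≤ M := by
        unfold sh
        by_cases hl : l = k
        · subst hl; simp
        · simp [hl]
      have h5 : (2 * (N' : ℤ)) ≤ N := by exact_mod_cast hN
      have h6 : (M : ℤ) ≤ N' := by exact_mod_cast hM
      rw [Pi.add_apply]
      constructor <;> omega
    · rintro ⟨a, b⟩ _ ⟨a', b'⟩ _ h
      simp only [Prod.mk.injEq, add_left_inj] at h
      obtain ⟨rfl, rfl⟩ := h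
      rfl
  have h3 := sum_le_sum fun k (_ : k ∈ (univ : Finset (Fin D))) => h2 k
  rw [sum_const, card_univ, Fintype.card_fin, nsmul_eq_mul] at h3
  linarith

open Classical in
theorem grid (D N' M : ℕ) (hN' : 0 < N') (hM : M ≤ N')
    (P : (Fin D → ℤ) → (Fin D → ℤ) → Prop) (E : (Fin D → ℤ) → Prop) (α β σ : ℝ)
    (hσ : 0 < σ)
    (hP : (((UZ D (2 * N') ×ˢ UZ D (2 * N')).filter fun q => P q.1 q.2).card : ℝ) ≤
      α * ((2 * N' : ℕ) : ℝ) ^ (2 * D))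
    (hE : (((UZ D (2 * N')).filter E).card : ℝ) ≤ β * ((2 * N' : ℕ) : ℝ) ^ D)
    (hlt : β + σ * (((D : ℝ) + 1) * α) < 1 / 2 ^ D) :
    ∃ m0 ∈ UZ D N', ¬ E m0 ∧ ff D (2 * N') M P m0 ≤ ((2 * N' : ℕ) : ℝ) ^ D / σ := by
  by_contra hcon
  push Not at hcon
  obtain ⟨T, hT⟩ : ∃ T : ℝ, T = ((2 * N' : ℕ) : ℝ) ^ D := ⟨_, rfl⟩
  have hT0 : 0 < T := by rw [hT]; positivity
  have hT2 : ((2 * N' : ℕ) : ℝ) ^ (2 * D) = T * T := by rw [hT, two_mul D, pow_add]
  rw [hT2] at hP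
  rw [← hT] at hE hcon
  have hff : ∀ m0, 0 ≤ ff D (2 * N') M P m0 := by
    intro m0
    unfold ff
    positivity
  have h1 := sum_le (D := D) (N := 2 * N') (N' := N') (M := M) le_rfl hM P
  have h2 : ∑ m0 ∈ (UZ D N').filter (fun m => ¬ E m), ff D (2 * N') M P m0 ≤
      ∑ m0 ∈ UZ D N', ff D (2 * N') M P m0 :=
    sum_le_sum_of_subset_of_nonneg (filter_subset _ _) fun m _ _ => hff m
  have h3 : (((UZ D N').filter (fun m => ¬ E m)).card : ℝ) * (T / σ) ≤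
      ∑ m0 ∈ (UZ D N').filter (fun m => ¬ E m), ff D (2 * N') M P m0 := by
    rw [← nsmul_eq_mul]
    refine card_nsmul_le_sum _ _ _ fun m hm => ?_
    rw [mem_filter] at hm
    exact (hcon m hm.1 hm.2).le
  have h4 : (((UZ D N').filter E).card : ℝ) + (((UZ D N').filter (fun m => ¬ E m)).card : ℝ) =
      T / 2 ^ D := by
    have h5 := card_filter_add_card_filter_not (s := UZ D N') E
    rw [card_UZ] at h5
    have h6 : (((UZ D N').filter E).card : ℝ) + (((UZ D N').filter (fun m => ¬ E m)).card : ℝ) =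
        (N' : ℝ) ^ D := by exact_mod_cast h5
    rw [h6, hT]
    push_cast
    rw [mul_pow]
    field_simp
  have h5 : (((UZ D N').filter E).card : ℝ) ≤ (((UZ D (2 * N')).filter E).card : ℝ) := by
    exact_mod_cast card_le_card (filter_subset_filter _ (UZ_mono (by omega)))
  have h6 : (T / 2 ^ D - β * T) * (T / σ) ≤ ((D : ℝ) + 1) * (α * (T * T)) := by
    have h7 : T / 2 ^ D - β * T ≤ (((UZ D N').filter (fun m => ¬ E m)).card : ℝ) := by linarith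
    have h8 := mul_le_mul_of_nonneg_right h7 (div_nonneg hT0.le hσ.le)
    have h9 := mul_le_mul_of_nonneg_left hP (by positivity : (0 : ℝ) ≤ (D : ℝ) + 1)
    linarith
  have h7 : (T / 2 ^ D - β * T) * (T / σ) = (1 / 2 ^ D - β) * (T * T) / σ := by
    field_simp
  rw [h7, div_le_iff₀ hσ] at h6
  have h8 : (1 / 2 ^ D - β) * (T * T) ≤ (σ * (((D : ℝ) + 1) * α)) * (T * T) := by
    calc (1 / 2 ^ D - β) * (T * T) ≤ ((D : ℝ) + 1) * (α * (T * T)) * σ := h6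
      _ = _ := by ring
  have h9 := le_of_mul_le_mul_right h8 (mul_pos hT0 hT0)
  linarith


open Filter Topology Pool.Agent.QSX

/-- the good elements at the base point `x` -/
def GG {G : Type} [Group G] {V : Type} [NormedAddCommGroup V] [InnerProductSpace ℝ V]
    {VX : Type} [NormedAddCommGroup VX] [NormedSpace ℝ VX] (d : Dif G V VX) (x : G) (j : ℕ)
    (Q : VX →ₗ[ℝ] V) (ε : ℝ) : Set G :=
  {g | g ∈ d.Nn ∧ ∀ b : VX, ‖b‖ ≤ 1 →
    ‖d.h (x * g * d.A ((j : ℝ) • b)) - d.h x - (j : ℝ) • Q b‖ ≤ ε * j}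

theorem not_GG {G : Type} [Group G] {V : Type} [NormedAddCommGroup V] [InnerProductSpace ℝ V]
    {VX : Type} [NormedAddCommGroup VX] [NormedSpace ℝ VX] {d : Dif G V VX} {x : G} {j : ℕ}
    {Q : VX →ₗ[ℝ] V} {ε : ℝ} {g : G} (hg : g ∈ d.Nn) : g ∉ GG d x j Q ε ↔
    ∃ a : VX, ‖a‖ ≤ 1 ∧ ε * j < ‖d.h (x * g * d.A ((j : ℝ) • a)) - d.h x - (j : ℝ) • Q a‖ := by
  unfold GG
  simp only [Set.mem_ofPred_eq, not_and, not_forall, not_le, hg, true_implies]
  exact exists_congr fun a => exists_prop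

/-- translation of the base point -/
theorem GG_shift {G : Type} [Group G] {V : Type} [NormedAddCommGroup V] [InnerProductSpace ℝ V]
    {VX : Type} [NormedAddCommGroup VX] [NormedSpace ℝ VX] {d : Dif G V VX} {x u : G} {j : ℕ}
    {Q : VX →ₗ[ℝ] V} {ε ε' : ℝ} {g : G} (hu : d.L * d.ℓ u + d.C ≤ ε * j) (hε : 2 * ε ≤ ε')
    (hg : g ∈ d.Nn) (hug : u * g ∈ GG d x j Q ε) : g ∈ GG d (x * u) j Q ε' := by
  refine ⟨hg, fun b hb => ?_⟩
  have h1 := hug.2 b hb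
  have h2 := d.lip x u
  have h3 : d.h (x * u * g * d.A ((j : ℝ) • b)) - d.h (x * u) - (j : ℝ) • Q b =
      (d.h (x * (u * g) * d.A ((j : ℝ) • b)) - d.h x - (j : ℝ) • Q b) -
        (d.h (x * u) - d.h x) := by
    rw [mul_assoc x u g]
    abel
  rw [h3]
  have h4 := norm_sub_le (d.h (x * (u * g) * d.A ((j : ℝ) • b)) - d.h x - (j : ℝ) • Q b)
    (d.h (x * u) - d.h x)
  have hj : (0 : ℝ) ≤ j := Nat.cast_nonneg j
  have h5 := mul_le_mul_of_nonneg_right hε hj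
  linarith

open Classical in
/-- the number of bad pairs, from the count over the subtype -/
theorem card_sub {α : Type} (s : Finset α) (P : α → Prop) :
    (s.filter P).card = {o : {x // x ∈ s} | P o.1}.ncard := by
  rw [← Set.ncard_coe_finset, ← Set.ncard_image_of_injective _ Subtype.val_injective]
  congr 1
  ext x
  simp only [coe_filter, Set.mem_ofPred_eq, Set.mem_image, Subtype.exists, exists_and_left,
    exists_prop, exists_eq_right_right]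
  exact and_comm

section main

variable {G : Type} [Group G] {V : Type} [NormedAddCommGroup V] [InnerProductSpace ℝ V]
  {VX : Type} [NormedAddCommGroup VX] [NormedSpace ℝ VX] {d : Dif G V VX} {D : ℕ} {I : Type}
  [Fintype I]

/-- the conclusion for one `s` -/
structure One (d : Dif G V VX) (w : Wds G D I) (γ : ℕ → G) (M : ℕ → ℕ) (K' : ℝ) (s : ℕ)
    (j : ℕ) (x : G) (Q : VX →ₗ[ℝ] V) (a : Fin D → ℕ) : Prop where
  hj : s ≤ j
  hj1 : 1 ≤ j
  hQ : ∀ b, ‖Q b‖ ≤ K' * ‖b‖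
  hγ : ∀ n ≤ s, γ n ∈ GG d x j Q (2 / ((s : ℝ) + 1))
  half : ∀ k, 2 * a k < HH D * M j
  pair : (({q : (Fin D → ℤ) × (Fin D → ℤ) | q.1 ∈ Bx (HH D * M j) a ∧
    q.2 ∈ Bx (HH D * M j) a ∧ ∃ i, w.W i (M j) q.1 q.2 ∉
      GG d x j Q (2 / ((s : ℝ) + 1))}.ncard : ℕ) : ℝ) ≤
      2 / ((s : ℝ) + 1) * ((HH D * M j : ℕ) : ℝ) ^ (2 * D)
  star : (({m : Fin D → ℤ | m ∈ Bx (HH D * M j) a ∧
    ∃ i, (w.W i (M j) 0 m ∉ GG d x j Q (2 / ((s : ℝ) + 1)) ∨
    ∃ k, m + sh (M j) k ∈ Bx (HH D * M j) a ∧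
      w.W i (M j) (sh (M j) k) (m + sh (M j) k) ∉
        GG d x j Q (2 / ((s : ℝ) + 1)))}.ncard : ℕ) : ℝ) ≤
      2 / ((s : ℝ) + 1) * ((HH D * M j : ℕ) : ℝ) ^ D

open Classical in
theorem exists_one (w : Wds G D I) (γ : ℕ → G) (hγ : ∀ n, γ n ∈ d.Nn)
    (h1 : ∀ M m, ∀ g ∈ d.Nn, w.U M m * g ∈ d.Nn) (h2 : ∀ i M m m', w.W i M m m' ∈ d.Nn)
    (K0 : ℝ) (h3 : ∀ i (M : ℕ) m m', 0 < M → (∀ k, |m k| ≤ ((HH D * M : ℕ) : ℤ)) →
      (∀ k, |m' k| ≤ ((HH D * M : ℕ) : ℤ)) → d.ℓ (w.W i M m m') ≤ K0)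
    (K1 : ℕ → ℝ) (h4 : ∀ n (M : ℕ) m, 0 < M → (∀ k, |m k| ≤ ((HH D * M : ℕ) : ℤ)) →
      d.ℓ (w.U M m * γ n) ≤ K1 n)
    (K2 : ℝ) (h5 : ∀ (M : ℕ) m, 0 < M → (∀ k, |m k| ≤ ((HH D * M : ℕ) : ℤ)) →
      d.ℓ (w.U M m) ≤ K2)
    (M : ℕ → ℕ) (hM : ∀ j, 0 < M j) (K' : ℝ)
    (htyq : ∀ (K0 ε : ℝ) (I : Type) [Fintype I], 0 < ε → ∃ j1 : ℕ, 1 ≤ j1 ∧ ∀ j, j1 ≤ j →
      ∀ (Ω : Type) [Fintype Ω] [Nonempty Ω] (w : I → Ω → G),
        (∀ i o, w i o ∈ d.Nn ∧ d.ℓ (w i o) ≤ K0) →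
        ∃ (x : G) (Q : VX →ₗ[ℝ] V), (∀ a, ‖Q a‖ ≤ K' * ‖a‖) ∧
          ∀ i, (({o : Ω | ∃ a : VX, ‖a‖ ≤ 1 ∧
            ε * j < ‖d.h (x * w i o * d.A ((j : ℝ) • a)) - d.h x - (j : ℝ) • Q a‖}.ncard : ℕ) :
              ℝ) ≤ ε * Fintype.card Ω) (s : ℕ) :
    ∃ (j : ℕ) (x : G) (Q : VX →ₗ[ℝ] V) (a : Fin D → ℕ), One d w γ M K' s j x Q a := by
  obtain ⟨nI, hnI⟩ : ∃ nI : ℝ, nI = Fintype.card I := ⟨_, rfl⟩
  have hnI0 : 0 ≤ nI := by rw [hnI]; positivity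
  obtain ⟨σ, hσ⟩ : ∃ σ : ℝ, σ = (s : ℝ) + 1 := ⟨_, rfl⟩
  have hσ0 : 0 < σ := by rw [hσ]; positivity
  obtain ⟨ε, hε⟩ : ∃ ε : ℝ, ε = 1 / (2 ^ (D + 1) * σ * (1 + ((D : ℝ) + 1) * nI)) := ⟨_, rfl⟩
  have hε0 : 0 < ε := by rw [hε]; positivity
  have hεσ : σ * ε * (1 + ((D : ℝ) + 1) * nI) = 1 / 2 ^ (D + 1) := by
    rw [hε]; field_simp
  have hpow : (1 : ℝ) / 2 ^ (D + 1) ≤ 1 := by
    rw [div_le_one (by positivity)]
    exact one_le_pow₀ (by norm_num)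
  have hDn : 0 ≤ ((D : ℝ) + 1) * nI := by positivity
  have hσε : σ * ε ≤ 1 := by
    have : 0 ≤ σ * ε := by positivity
    nlinarith
  have hσεn : σ * (nI * ε) ≤ 1 := by
    have h6 : 0 ≤ σ * ε := by positivity
    have h7 : nI ≤ 1 + ((D : ℝ) + 1) * nI := by nlinarith
    have h8 := mul_le_mul_of_nonneg_left h7 h6
    rw [hεσ] at h8
    have h9 : σ * (nI * ε) = σ * ε * nI := by ring
    linarith
  obtain ⟨Ks, hKs⟩ : ∃ Ks : ℝ, Ks = |K0| + ∑ n ∈ range (s + 1), |K1 n| := ⟨_, rfl⟩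
  have hKs0 : K0 ≤ Ks := by
    rw [hKs]
    have := sum_nonneg (s := range (s + 1)) fun n _ => abs_nonneg (K1 n)
    have := le_abs_self K0
    linarith
  have hKs1 : ∀ n ≤ s, K1 n ≤ Ks := by
    intro n hn
    rw [hKs]
    have h6 := single_le_sum (f := fun n => |K1 n|) (s := range (s + 1))
      (fun n _ => abs_nonneg (K1 n)) (mem_range.mpr (by omega : n < s + 1))
    have h7 := le_abs_self (K1 n)
    have h8 := abs_nonneg K0
    linarith
  obtain ⟨j1, hj1, H⟩ := htyq Ks ε (I ⊕ Fin (s + 1)) hε0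
  obtain ⟨j, hj⟩ : ∃ j : ℕ, j = max (max j1 s) ⌈(d.L * K2 + d.C) / ε⌉₊ := ⟨_, rfl⟩
  have hjj1 : j1 ≤ j := by rw [hj]; exact (le_max_left _ _).trans (le_max_left _ _)
  have hjs : s ≤ j := by rw [hj]; exact (le_max_right _ _).trans (le_max_left _ _)
  have hjε : d.L * K2 + d.C ≤ ε * j := by
    have h6 : (d.L * K2 + d.C) / ε ≤ j := by
      refine (Nat.le_ceil _).trans ?_
      rw [hj]
      exact_mod_cast le_max_right _ _
    rw [div_le_iff₀ hε0] at h6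
    linarith
  obtain ⟨N', hN'⟩ : ∃ N' : ℕ, N' = 16 * (D + 1) * M j := ⟨_, rfl⟩
  have hN2 : 2 * N' = HH D * M j := by rw [hN', HH]; ring
  have hMj := hM j
  have hN'0 : 0 < N' := by rw [hN']; positivity
  have hMN : M j ≤ N' := by
    rw [hN']
    exact Nat.le_mul_of_pos_left _ (by positivity)
  have habs : ∀ m ∈ UZ D (2 * N'), ∀ k, |m k| ≤ ((HH D * M j : ℕ) : ℤ) := by
    intro m hm k
    have h6 := mem_UZ.mp hm k
    rw [← hN2, abs_of_nonneg h6.1]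
    exact h6.2.le
  have h0U : (0 : Fin D → ℤ) ∈ UZ D (2 * N') := by
    rw [mem_UZ]
    intro k
    simp only [Pi.zero_apply]
    constructor
    · exact le_rfl
    · exact_mod_cast (by omega : 0 < 2 * N')
  have hne : Nonempty {q // q ∈ UZ D (2 * N') ×ˢ UZ D (2 * N')} :=
    ⟨⟨(0, 0), mem_product.mpr ⟨h0U, h0U⟩⟩⟩
  obtain ⟨x', Q, hQ, hcount⟩ := H j hjj1 {q // q ∈ UZ D (2 * N') ×ˢ UZ D (2 * N')}
    (Sum.elim (fun i o => w.W i (M j) o.1.1 o.1.2) (fun n o => w.U (M j) o.1.1 * γ n)) (by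
      rintro (i | n) ⟨q, hq⟩
      · rw [mem_product] at hq
        exact ⟨h2 _ _ _ _, (h3 i (M j) q.1 q.2 hMj (habs _ hq.1) (habs _ hq.2)).trans hKs0⟩
      · rw [mem_product] at hq
        exact ⟨h1 _ _ _ (hγ _), (h4 n (M j) q.1 hMj (habs _ hq.1)).trans (hKs1 n (by omega))⟩)
  have hcardΩ : (Fintype.card {q // q ∈ UZ D (2 * N') ×ˢ UZ D (2 * N')} : ℝ) =
      ((2 * N' : ℕ) : ℝ) ^ (2 * D) := by
    rw [Fintype.card_coe, card_product, card_UZ, two_mul D, pow_add]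
    push_cast
    ring
  rw [hcardΩ] at hcount
  -- the counts of the bad pairs
  obtain ⟨Bi, hBi⟩ : ∃ Bi : I → (Fin D → ℤ) → (Fin D → ℤ) → Prop, ∀ i m m', Bi i m m' ↔
      w.W i (M j) m m' ∉ GG d x' j Q ε := ⟨_, fun _ _ _ => Iff.rfl⟩
  obtain ⟨Cn, hCn⟩ : ∃ Cn : Fin (s + 1) → (Fin D → ℤ) → Prop, ∀ n m, Cn n m ↔
      w.U (M j) m * γ n ∉ GG d x' j Q ε := ⟨_, fun _ _ => Iff.rfl⟩
  obtain ⟨P, hPd⟩ : ∃ P : (Fin D → ℤ) → (Fin D → ℤ) → Prop, ∀ m m', P m m' ↔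
      ∃ i, Bi i m m' := ⟨_, fun _ _ => Iff.rfl⟩
  obtain ⟨E, hEd⟩ : ∃ E : (Fin D → ℤ) → Prop, ∀ m, E m ↔ ∃ n, Cn n m := ⟨_, fun _ => Iff.rfl⟩
  have hcI : ∀ i : I, (((UZ D (2 * N') ×ˢ UZ D (2 * N')).filter fun q =>
      Bi i q.1 q.2).card : ℝ) ≤ ε * ((2 * N' : ℕ) : ℝ) ^ (2 * D) := by
    intro i
    rw [card_sub]
    refine le_trans (le_of_eq ?_) (hcount (Sum.inl i))
    congr 2
    ext o
    exact (hBi _ _ _).trans (not_GG (h2 _ _ _ _))
  have hcN : ∀ n : Fin (s + 1), (((UZ D (2 * N') ×ˢ UZ D (2 * N')).filter fun q =>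
      Cn n q.1).card : ℝ) ≤ ε * ((2 * N' : ℕ) : ℝ) ^ (2 * D) := by
    intro n
    rw [card_sub]
    refine le_trans (le_of_eq ?_) (hcount (Sum.inr n))
    congr 2
    ext o
    exact (hCn _ _).trans (not_GG (h1 _ _ _ (hγ _)))
  have hNpos : (0 : ℝ) < ((2 * N' : ℕ) : ℝ) ^ D := by positivity
  have hP : (((UZ D (2 * N') ×ˢ UZ D (2 * N')).filter fun q => P q.1 q.2).card : ℝ) ≤
      (nI * ε) * ((2 * N' : ℕ) : ℝ) ^ (2 * D) := by
    have h6 : ((UZ D (2 * N') ×ˢ UZ D (2 * N')).filter fun q => P q.1 q.2) ⊆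
        (univ : Finset I).biUnion fun i => (UZ D (2 * N') ×ˢ UZ D (2 * N')).filter fun q =>
          Bi i q.1 q.2 := by
      intro q hq
      rw [mem_filter] at hq
      obtain ⟨i, hi⟩ := (hPd _ _).mp hq.2
      exact mem_biUnion.mpr ⟨i, mem_univ _, mem_filter.mpr ⟨hq.1, hi⟩⟩
    have h7 := (card_le_card h6).trans card_biUnion_le
    have h8 : (((UZ D (2 * N') ×ˢ UZ D (2 * N')).filter fun q => P q.1 q.2).card : ℝ) ≤
      ∑ i : I, (((UZ D (2 * N') ×ˢ UZ D (2 * N')).filter fun q =>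
        Bi i q.1 q.2).card : ℝ) := by exact_mod_cast h7
    refine h8.trans ((sum_le_sum fun i _ => hcI i).trans (le_of_eq ?_))
    rw [sum_const, card_univ, nsmul_eq_mul, ← hnI]
    ring
  have hE : (((UZ D (2 * N')).filter fun m => E m).card : ℝ) ≤
      (σ * ε) * ((2 * N' : ℕ) : ℝ) ^ D := by
    have h6 : ((UZ D (2 * N')).filter fun m => E m) ⊆
        (univ : Finset (Fin (s + 1))).biUnion fun n => (UZ D (2 * N')).filter fun m =>
          Cn n m := by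
      intro q hq
      rw [mem_filter] at hq
      obtain ⟨i, hi⟩ := (hEd _).mp hq.2
      exact mem_biUnion.mpr ⟨i, mem_univ _, mem_filter.mpr ⟨hq.1, hi⟩⟩
    have h7 := (card_le_card h6).trans card_biUnion_le
    have h8 : (((UZ D (2 * N')).filter fun m => E m).card : ℝ) ≤
      ∑ n : Fin (s + 1), (((UZ D (2 * N')).filter fun m => Cn n m).card : ℝ) := by
      exact_mod_cast h7
    have h9 : ∀ n : Fin (s + 1), (((UZ D (2 * N')).filter fun m => Cn n m).card : ℝ) ≤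
        ε * ((2 * N' : ℕ) : ℝ) ^ D := by
      intro n
      have h10 := hcN n
      have h11 : ((UZ D (2 * N') ×ˢ UZ D (2 * N')).filter fun q => Cn n q.1) =
          ((UZ D (2 * N')).filter fun m => Cn n m) ×ˢ UZ D (2 * N') := by
        ext q
        simp only [mem_filter, mem_product]
        tauto
      rw [h11, card_product, card_UZ, two_mul D, pow_add] at h10
      push_cast at h10 hNpos ⊢
      rw [← mul_assoc] at h10
      exact le_of_mul_le_mul_right h10 hNpos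
    refine h8.trans ((sum_le_sum fun n _ => h9 n).trans (le_of_eq ?_))
    rw [sum_const, card_univ, Fintype.card_fin, nsmul_eq_mul, hσ]
    push_cast
    ring
  have hlt : σ * ε + σ * (((D : ℝ) + 1) * (nI * ε)) < 1 / 2 ^ D := by
    have h6 : σ * ε + σ * (((D : ℝ) + 1) * (nI * ε)) = σ * ε * (1 + ((D : ℝ) + 1) * nI) := by ring
    rw [h6, hεσ, pow_succ]
    refine div_lt_div_of_pos_left one_pos (by positivity) ?_
    have : (0 : ℝ) < 2 ^ D := by positivity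
    linarith
  obtain ⟨m0, hm0, hm0E, hm0f⟩ := grid D N' (M j) hN'0 hMN P E (nI * ε) (σ * ε) σ hσ0 hP hE hlt
  have hm0' := mem_UZ.mp hm0
  have hU : d.L * d.ℓ (w.U (M j) m0) + d.C ≤ ε * j := by
    have h6 := h5 (M j) m0 hMj (habs m0 (UZ_mono (by omega) hm0))
    have h7 := mul_le_mul_of_nonneg_left h6 d.L0
    linarith
  have h2ε : 2 * ε ≤ 2 / ((s : ℝ) + 1) := by
    rw [← hσ, le_div_iff₀ hσ0]
    nlinarith
  have hshift : ∀ g ∈ d.Nn, g ∉ GG d (x' * w.U (M j) m0) j Q (2 / ((s : ℝ) + 1)) →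
      w.U (M j) m0 * g ∉ GG d x' j Q ε := fun g hg hg' h => hg' (GG_shift hU h2ε hg h)
  have haz : ∀ k, (((m0 k).toNat : ℕ) : ℤ) = m0 k := fun k => Int.toNat_of_nonneg (hm0' k).1
  have hBx : ∀ m, m ∈ Bx (HH D * M j) (fun k => (m0 k).toNat) → m + m0 ∈ UZ D (2 * N') := by
    intro m hm
    rw [mem_UZ]
    intro k
    unfold Bx at hm
    rw [Fintype.mem_piFinset] at hm
    have h6 := hm k
    rw [mem_Ico, haz, ← hN2] at h6
    rw [Pi.add_apply]
    constructor <;> omega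
  refine ⟨j, x' * w.U (M j) m0, Q, fun k => (m0 k).toNat, hjs, hj1.trans hjj1, hQ, ?_, ?_, ?_, ?_⟩
  · intro n hn
    by_contra hcon
    exact hm0E ((hEd _).mpr ⟨⟨n, by omega⟩, (hCn _ _).mpr (hshift _ (hγ n) hcon)⟩)
  · intro k
    have h6 := (hm0' k).2
    rw [← haz k] at h6
    have h7 : (m0 k).toNat < N' := by exact_mod_cast h6
    omega
  · -- pairs
    have h6 : ({q : (Fin D → ℤ) × (Fin D → ℤ) | q.1 ∈ Bx (HH D * M j) (fun k => (m0 k).toNat) ∧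
        q.2 ∈ Bx (HH D * M j) (fun k => (m0 k).toNat) ∧ ∃ i, w.W i (M j) q.1 q.2 ∉
        GG d (x' * w.U (M j) m0) j Q (2 / ((s : ℝ) + 1))}.ncard : ℕ) ≤
        ((UZ D (2 * N') ×ˢ UZ D (2 * N')).filter fun q => P q.1 q.2).card := by
      rw [← Set.ncard_coe_finset]
      refine Set.ncard_le_ncard_of_injOn (fun q => (q.1 + m0, q.2 + m0)) ?_ ?_
        (Finset.finite_toSet _)
      · rintro ⟨a, b⟩ ⟨ha, hb, i, hi⟩
        rw [mem_coe, mem_filter, mem_product]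
        refine ⟨⟨hBx a ha, hBx b hb⟩, (hPd _ _).mpr ⟨i, (hBi _ _ _).mpr ?_⟩⟩
        rw [w.shift]
        exact hshift _ (h2 _ _ _ _) hi
      · rintro ⟨a, b⟩ _ ⟨a', b'⟩ _ h
        simp only [Prod.mk.injEq, add_left_inj] at h
        obtain ⟨rfl, rfl⟩ := h
        rfl
    have h7 : nI * ε ≤ 2 / ((s : ℝ) + 1) := by
      rw [← hσ, le_div_iff₀ hσ0]
      linarith
    have h8 : ((HH D * M j : ℕ) : ℝ) = ((2 * N' : ℕ) : ℝ) := by rw [hN2]
    rw [h8]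
    calc _ ≤ ((((UZ D (2 * N') ×ˢ UZ D (2 * N')).filter fun q => P q.1 q.2).card : ℕ) : ℝ) := by
          exact_mod_cast h6
      _ ≤ (nI * ε) * ((2 * N' : ℕ) : ℝ) ^ (2 * D) := hP
      _ ≤ _ := mul_le_mul_of_nonneg_right h7 (by positivity)
  · -- stars
    have h6 : ({m : Fin D → ℤ | m ∈ Bx (HH D * M j) (fun k => (m0 k).toNat) ∧
        ∃ i, (w.W i (M j) 0 m ∉ GG d (x' * w.U (M j) m0) j Q (2 / ((s : ℝ) + 1)) ∨
        ∃ k, m + sh (M j) k ∈ Bx (HH D * M j) (fun k => (m0 k).toNat) ∧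
          w.W i (M j) (sh (M j) k) (m + sh (M j) k) ∉
            GG d (x' * w.U (M j) m0) j Q (2 / ((s : ℝ) + 1)))}.ncard : ℕ) ≤
        (((UZ D (2 * N')).filter fun m => P m0 m) ∪
          (univ : Finset (Fin D)).biUnion fun k => (UZ D (2 * N')).filter fun m =>
            m + sh (M j) k ∈ UZ D (2 * N') ∧ P (m0 + sh (M j) k) (m + sh (M j) k)).card := by
      rw [← Set.ncard_coe_finset]
      refine Set.ncard_le_ncard_of_injOn (fun m => m + m0) ?_ ?_ (Finset.finite_toSet _)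
      · rintro m ⟨hm, i, hi⟩
        rw [mem_coe, mem_union]
        rcases hi with hi | ⟨k, hk, hi⟩
        · left
          rw [mem_filter]
          refine ⟨hBx m hm, (hPd _ _).mpr ⟨i, (hBi _ _ _).mpr ?_⟩⟩
          have h7 := hshift _ (h2 _ _ _ _) hi
          rwa [← w.shift, zero_add] at h7
        · right
          refine mem_biUnion.mpr ⟨k, mem_univ _, mem_filter.mpr ⟨hBx m hm, ?_,
            (hPd _ _).mpr ⟨i, (hBi _ _ _).mpr ?_⟩⟩⟩
          · have h7 := hBx _ hk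
            rwa [add_right_comm] at h7
          · have h7 := hshift _ (h2 _ _ _ _) hi
            rwa [← w.shift, add_comm (sh (M j) k) m0, add_right_comm] at h7
      · intro a _ b _ h
        exact add_right_cancel h
    have h7 : ((((UZ D (2 * N')).filter fun m => P m0 m) ∪
          (univ : Finset (Fin D)).biUnion fun k => (UZ D (2 * N')).filter fun m =>
            m + sh (M j) k ∈ UZ D (2 * N') ∧ P (m0 + sh (M j) k) (m + sh (M j) k)).card : ℝ) ≤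
        ff D (2 * N') (M j) P m0 := by
      unfold ff
      have h8 := (card_union_le ((UZ D (2 * N')).filter fun m => P m0 m)
        ((univ : Finset (Fin D)).biUnion fun k => (UZ D (2 * N')).filter fun m =>
            m + sh (M j) k ∈ UZ D (2 * N') ∧ P (m0 + sh (M j) k) (m + sh (M j) k))).trans
              (Nat.add_le_add_left card_biUnion_le _)
      exact_mod_cast h8
    have h8 : ((HH D * M j : ℕ) : ℝ) = ((2 * N' : ℕ) : ℝ) := by rw [hN2]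
    rw [h8]
    have h9 : ((2 * N' : ℕ) : ℝ) ^ D / σ ≤ 2 / ((s : ℝ) + 1) * ((2 * N' : ℕ) : ℝ) ^ D := by
      rw [← hσ, div_mul_eq_mul_div]
      exact div_le_div_of_nonneg_right (by linarith) hσ0.le
    refine le_trans ?_ (h7.trans (hm0f.trans h9))
    exact_mod_cast h6

end main

theorem sqn (tyq : TyqStmt) : SqnStmt := by
  intro G _ Mn hMn V _ _ VX _ _ _ d D I _ w Γ hΓc hΓ h1Nn h1 h2 h3 h4 M hM
  obtain ⟨K', hK', htyq⟩ := tyq G Mn hMn V VX d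
  -- enumeration
  obtain ⟨γ, hγr⟩ := (hΓc.insert 1).exists_eq_range (Set.insert_nonempty _ _)
  have hγ : ∀ n, γ n ∈ d.Nn := by
    intro n
    have h : γ n ∈ insert 1 Γ := by rw [hγr]; exact Set.mem_range_self n
    rcases h with h | h
    · rw [h]; exact h1Nn
    · exact hΓ h
  obtain ⟨K0, hK0⟩ := h3
  have h4' : ∀ n, ∃ K1 : ℝ, ∀ (M : ℕ) m, 0 < M → (∀ k, |m k| ≤ ((HH D * M : ℕ) : ℤ)) →
      d.ℓ (w.U M m * γ n) ≤ K1 := fun n => h4 (γ n) (hγ n)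
  choose K1 hK1 using h4'
  obtain ⟨K2, hK2⟩ := h4 1 h1Nn
  have hK2' : ∀ (M : ℕ) m, 0 < M → (∀ k, |m k| ≤ ((HH D * M : ℕ) : ℤ)) → d.ℓ (w.U M m) ≤ K2 := by
    intro M m hM hm
    have := hK2 M m hM hm
    rwa [mul_one] at this
  have hex := fun s => exists_one w γ hγ h1 h2 K0 hK0 K1 hK1 K2 hK2' M hM K' htyq s
  choose j x Q a hone using hex
  refine ⟨K', j, x, Q, fun s => 2 / ((s : ℝ) + 1), a,
    fun s => GG d (x s) (j s) (Q s) (2 / ((s : ℝ) + 1)), hK', ?_, fun s => (hone s).hj1,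
    fun s => (hone s).hQ, fun s => by positivity, ?_, fun s g => Iff.rfl, ?_, ?_⟩
  · exact tendsto_atTop_mono (fun s => (hone s).hj) tendsto_id
  · have h := (tendsto_one_div_add_atTop_nhds_zero_nat (𝕜 := ℝ)).const_mul 2
    rw [mul_zero] at h
    refine h.congr fun s => ?_
    ring
  · intro g hg
    have h : g ∈ Set.range γ := by rw [← hγr]; exact Set.mem_insert_of_mem _ hg
    obtain ⟨n, rfl⟩ := h
    filter_upwards [eventually_ge_atTop n] with s hs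
    exact (hone s).hγ n hs
  · exact ⟨fun s k => (hone s).half k, fun s => (hone s).pair, fun s => (hone s).star⟩

end Pool.Agent.QSN.H50
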